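import Mathlib
import Pool.Agent.W237.RK.All

set_option autoImplicit false

/-!
# Small points relative to the smooth roots of a finitely generated group

All fields are subfields of `AlgebraicClosure ℚ`; subgroups of the multiplicative group are
subgroups of the unit group of `AlgebraicClosure ℚ`.
-/

namespace Pool.Agent.Results.MP_f61260_nt.SmoothRoots

open Pool.Agent.H58P (Qb ht)
open Pool.Agent.W237.RK

/-- `β` lies in the division group of `Γ`: a positive power of `β` is an element of `Γ` -/
def InDivisionGroup (Γ : Subgroup (AlgebraicClosure ℚ)ˣ) (β : AlgebraicClosure ℚ) : Prop :=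
  ∃ n : ℕ, 0 < n ∧ ∃ g ∈ Γ, β ^ n = (g : AlgebraicClosure ℚ)

/-- the field generated over `K` by all roots of unity and by all `n`-th roots of all elements of
`Γ`, for all positive integers `n` all of whose prime factors belong to `P` -/
noncomputable def smoothRootField (K : IntermediateField ℚ (AlgebraicClosure ℚ))
    (Γ : Subgroup (AlgebraicClosure ℚ)ˣ) (P : Finset ℕ) :
    IntermediateField ℚ (AlgebraicClosure ℚ) :=
  K ⊔ IntermediateField.adjoin ℚ
    ({y | ∃ n : ℕ, 0 < n ∧ y ^ n = 1} ∪
      {y | ∃ n : ℕ, (0 < n ∧ ∀ q : ℕ, q.Prime → q ∣ n → q ∈ P) ∧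
        ∃ g ∈ Γ, y ^ n = (g : AlgebraicClosure ℚ)})

/-- **Small points relative to the smooth roots of a finitely generated group.**
Let `K` be a number field, `Γ` a finitely generated subgroup of `ℚ̄*`, `P` a finite set of primes
and `D` a natural number. There is `c > 0` such that every nonzero algebraic number `α` which has
degree at most `D` over the field `K(μ_∞, Γ^{1/n} : n a product of primes of P)` and which does not
lie in the division group of `Γ` has absolute logarithmic Weil height at least `c`. -/
theorem result :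
    ∀ (K : IntermediateField ℚ (AlgebraicClosure ℚ)), FiniteDimensional ℚ K →
    ∀ (Γ : Subgroup (AlgebraicClosure ℚ)ˣ), Γ.FG →
    ∀ (P : Finset ℕ), (∀ p ∈ P, p.Prime) → ∀ D : ℕ,
      ∃ c : ℝ, 0 < c ∧ ∀ α : AlgebraicClosure ℚ, α ≠ 0 → ¬ InDivisionGroup Γ α →
        (minpoly (smoothRootField K Γ P) α).natDegree ≤ D → c ≤ NumberField.absLogHeight₁ α := by
  intro K hK Γ hΓ P hP D
  obtain ⟨S, hS⟩ := id hΓ
  set T : Set Qb := (fun u : Qbˣ => (u : Qb)) '' (S : Set Qbˣ) with hT
  have hTf : Finite T := (S.finite_toSet.image _)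
  have hTfd : FiniteDimensional ℚ (IntermediateField.adjoin ℚ T) :=
    IntermediateField.finiteDimensional_adjoin fun x _ => Pool.Agent.H58P.qb_isIntegral x
  set K' : GF := K ⊔ IntermediateField.adjoin ℚ T with hK'
  have hK'fd : FiniteDimensional ℚ K' :=
    IntermediateField.finiteDimensional_sup K (IntermediateField.adjoin ℚ T)
  have hKK' : K ≤ K' := le_sup_left
  have hΓK' : ∀ g ∈ Γ, (g : Qb) ∈ K' := by
    intro g hg
    rw [← hS] at hg
    induction hg using Subgroup.closure_induction with
    | mem x hx =>
      exact (le_sup_right : IntermediateField.adjoin ℚ T ≤ K')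
        (IntermediateField.subset_adjoin _ _ ⟨x, hx, rfl⟩)
    | one => exact one_mem K'
    | mul x y _ _ hx hy => rw [Units.val_mul]; exact mul_mem hx hy
    | inv x _ hx => rw [Units.val_inv_eq_inv_val]; exact inv_mem hx
  obtain ⟨c, hc, hmain⟩ := main' K' Γ hK'fd hΓ hΓK' P hP D
  refine ⟨c, hc, fun α hα hnd hdeg => ?_⟩
  rw [Pool.Agent.H58P.absLogHeight₁_eq]
  refine hmain α hα ?_ hnd
  have hle : smoothRootField K Γ P ≤ fullField K' Γ P := by
    apply sup_le
    · exact hKK'.trans (le_fullField K' Γ P)
    · exact le_sup_right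
  calc (orb (fullField K' Γ P) α).ncard ≤ (orb (smoothRootField K Γ P) α).ncard :=
        Set.ncard_le_ncard (orb_mono hle α) (orb_finite _ _)
    _ = (minpoly (smoothRootField K Γ P) α).natDegree := orb_ncard _ _
    _ ≤ D := hdeg

end Pool.Agent.Results.MP_f61260_nt.SmoothRoots
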